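import Pool.Agent.Helper72.HA.Names

/-!
# Project HA, module HA-5: good pairs
-/

set_option autoImplicit false
set_option linter.unusedSectionVars false

namespace Pool.Agent.Helper69.HA

open Set Pool.Agent.Helper33.HM

universe u

variable {I : Type u} [LinearOrder I] [WellFoundedLT I] {Ω : Type} [LinearOrder Ω]
  {e : Ω → ℕ → Ω → Prop} {code : I → Ω → Set (Cond I Ω)}

namespace H30Good

/-- The elements of `Ω` which occur in `p`. -/
def occ (p : PC e code) : Set Ω :=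
  {δ | ∃ i, (∃ m, (p.f i).c δ m ≠ none) ∨ (p.f i).φ δ ≠ none ∨ ∃ n, (p.f i).F δ n}

/-- The places of `p`. -/
def sup (p : PC e code) : Set I := {i | p.f i ≠ Dat.emp}

theorem sup_finite (p : PC e code) : (sup p).Finite := p.c.fin

theorem ne_emp_c {p : PC e code} {i : I} {δ : Ω} {m : ℕ} (h : (p.f i).c δ m ≠ none) :
    i ∈ sup p := by
  intro h0
  rw [h0] at h
  exact h rfl

theorem ne_emp_φ {p : PC e code} {i : I} {δ : Ω} (h : (p.f i).φ δ ≠ none) : i ∈ sup p := by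
  intro h0
  rw [h0] at h
  exact h rfl

theorem ne_emp_F {p : PC e code} {i : I} {δ : Ω} {n : ℕ} (h : (p.f i).F δ n) : i ∈ sup p := by
  intro h0
  rw [h0] at h
  exact h

theorem occ_finite (p : PC e code) : (occ p).Finite := by
  have h1 : occ p ⊆ ⋃ i ∈ sup p, ((Prod.fst '' {z : Ω × ℕ | (p.f i).c z.1 z.2 ≠ none}) ∪
      {z | (p.f i).φ z ≠ none} ∪ (Prod.fst '' {z : Ω × ℕ | (p.f i).F z.1 z.2})) := by
    rintro δ ⟨i, h⟩
    rcases h with ⟨m, h⟩ | h | ⟨n, h⟩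
    · exact mem_biUnion (ne_emp_c h) (Or.inl (Or.inl ⟨(δ, m), h, rfl⟩))
    · exact mem_biUnion (ne_emp_φ h) (Or.inl (Or.inr h))
    · exact mem_biUnion (ne_emp_F h) (Or.inr ⟨(δ, n), h, rfl⟩)
  refine (Set.Finite.biUnion (sup_finite p) fun i _ => ?_).subset h1
  exact (((p.f i).finc.image _).union (p.f i).finφ).union ((p.f i).finF.image _)

theorem in_iff {A : Set I} {β : Ω} {p : PC e code} :
    In A β p ↔ sup p ⊆ A ∧ ∀ δ ∈ occ p, δ < β := by
  constructor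
  · intro h
    refine ⟨fun i hi => h.dom i hi, ?_⟩
    rintro δ ⟨i, h1⟩
    rcases h1 with ⟨m, h1⟩ | h1 | ⟨n, h1⟩
    · exact h.c i δ m h1
    · exact h.φ i δ h1
    · exact h.F i δ n h1
  · rintro ⟨h1, h2⟩
    exact ⟨fun i hi => h1 hi, fun i δ m h => h2 δ ⟨i, Or.inl ⟨m, h⟩⟩,
      fun i δ h => h2 δ ⟨i, Or.inr (Or.inl h)⟩, fun i δ n h => h2 δ ⟨i, Or.inr (Or.inr ⟨n, h⟩)⟩⟩

theorem in_mono {A A' : Set I} {β β' : Ω} (hA : A ⊆ A') (hβ : β ≤ β') {p : PC e code}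
    (h : In A β p) : In A' β' p := by
  rw [in_iff] at h ⊢
  exact ⟨h.1.trans hA, fun δ hδ => (h.2 δ hδ).trans_le hβ⟩

/-- The graph of the values. -/
def Gc (p : PC e code) : Set (I × Ω × ℕ × ℕ) := {z | (p.f z.1).c z.2.1 z.2.2.1 = some z.2.2.2}

/-- The graph of the function. -/
def Gφ (p : PC e code) : Set (I × Ω × ℕ) := {z | (p.f z.1).φ z.2.1 = some z.2.2}

/-- The graph of the promises. -/
def GF (p : PC e code) : Set (I × Ω × ℕ) := {z | (p.f z.1).F z.2.1 z.2.2}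

theorem Gc_finite (p : PC e code) : (Gc p).Finite := by
  have h1 : Gc p ⊆ ⋃ i ∈ sup p, (fun z : Ω × ℕ => (i, z.1, z.2, ((p.f i).c z.1 z.2).getD 0)) ''
      {z : Ω × ℕ | (p.f i).c z.1 z.2 ≠ none} := by
    rintro ⟨i, δ, m, x⟩ h
    have h' : (p.f i).c δ m = some x := h
    have h2 : (p.f i).c δ m ≠ none := by rw [h']; simp
    refine mem_biUnion (ne_emp_c h2) ⟨(δ, m), h2, ?_⟩
    simp only [h', Option.getD_some]
  exact (Set.Finite.biUnion (sup_finite p) fun i _ => (p.f i).finc.image _).subset h1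

theorem Gφ_finite (p : PC e code) : (Gφ p).Finite := by
  have h1 : Gφ p ⊆ ⋃ i ∈ sup p, (fun z : Ω => (i, z, ((p.f i).φ z).getD 0)) ''
      {z : Ω | (p.f i).φ z ≠ none} := by
    rintro ⟨i, δ, x⟩ h
    have h' : (p.f i).φ δ = some x := h
    have h2 : (p.f i).φ δ ≠ none := by rw [h']; simp
    refine mem_biUnion (ne_emp_φ h2) ⟨δ, h2, ?_⟩
    simp only [h', Option.getD_some]
  exact (Set.Finite.biUnion (sup_finite p) fun i _ => (p.f i).finφ.image _).subset h1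

theorem GF_finite (p : PC e code) : (GF p).Finite := by
  have h1 : GF p ⊆ ⋃ i ∈ sup p, (fun z : Ω × ℕ => (i, z.1, z.2)) ''
      {z : Ω × ℕ | (p.f i).F z.1 z.2} := by
    rintro ⟨i, δ, n⟩ h
    exact mem_biUnion (ne_emp_F h) ⟨(δ, n), h, rfl⟩
  exact (Set.Finite.biUnion (sup_finite p) fun i _ => (p.f i).finF.image _).subset h1

theorem graph_inj {p q : PC e code} (h1 : Gc p = Gc q) (h2 : Gφ p = Gφ q) (h3 : GF p = GF q) :
    p = q := by
  refine PC.ext' fun i => ?_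
  apply Dat.ext
  · funext δ m
    apply Option.ext
    intro x
    have := congrArg (fun s => ((i, δ, m, x) : I × Ω × ℕ × ℕ) ∈ s) h1
    exact iff_of_eq this
  · funext δ
    apply Option.ext
    intro x
    have := congrArg (fun s => ((i, δ, x) : I × Ω × ℕ) ∈ s) h2
    exact iff_of_eq this
  · funext δ n
    exact congrArg (fun s => ((i, δ, n) : I × Ω × ℕ) ∈ s) h3

theorem countable_lists {α : Type u} {S : Set α} (hS : S.Countable) :
    {l : List α | ∀ z ∈ l, z ∈ S}.Countable := by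
  haveI : Countable S := hS.to_subtype
  refine (Set.countable_range (fun l : List S => l.map Subtype.val)).mono ?_
  intro l hl
  lift l to List S using hl
  exact ⟨l, rfl⟩

end H30Good

open H30Good

/-- There are countably many conditions in a countable set of places and a countable initial
segment. -/
theorem countable_in (hI : ∀ b : Ω, (Iio b).Countable) {A : Set I} (hA : A.Countable) (β : Ω) :
    {p : PC e code | In A β p}.Countable := by
  have hc : (A ×ˢ (Iio β ×ˢ (univ : Set (ℕ × ℕ)))).Countable :=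
    hA.prod ((hI β).prod (Set.to_countable _))
  have hf : (A ×ˢ (Iio β ×ˢ (univ : Set ℕ))).Countable :=
    hA.prod ((hI β).prod (Set.to_countable _))
  have h1 := (Set.countable_ofPred_finite_subset hc).prod
    ((Set.countable_ofPred_finite_subset hf).prod (Set.countable_ofPred_finite_subset hf))
  refine Set.MapsTo.countable_of_injOn (f := fun p : PC e code => (Gc p, Gφ p, GF p)) ?_ ?_ h1
  · intro p hp
    have hp' := in_iff.1 hp
    refine ⟨⟨Gc_finite p, ?_⟩, ⟨Gφ_finite p, ?_⟩, GF_finite p, ?_⟩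
    · rintro ⟨i, δ, m, x⟩ h
      have h' : (p.f i).c δ m = some x := h
      have h2 : (p.f i).c δ m ≠ none := by rw [h']; simp
      exact ⟨hp'.1 (ne_emp_c h2), hp'.2 δ ⟨i, Or.inl ⟨m, h2⟩⟩, mem_univ _⟩
    · rintro ⟨i, δ, x⟩ h
      have h' : (p.f i).φ δ = some x := h
      have h2 : (p.f i).φ δ ≠ none := by rw [h']; simp
      exact ⟨hp'.1 (ne_emp_φ h2), hp'.2 δ ⟨i, Or.inr (Or.inl h2)⟩, mem_univ _⟩
    · rintro ⟨i, δ, n⟩ h
      exact ⟨hp'.1 (ne_emp_F h), hp'.2 δ ⟨i, Or.inr (Or.inr ⟨n, h⟩)⟩, mem_univ _⟩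
  · intro p _ q _ h
    obtain ⟨h1, h2⟩ := Prod.mk.inj h
    obtain ⟨h2, h3⟩ := Prod.mk.inj h2
    exact graph_inj h1 h2 h3

namespace H30Good

theorem countable_idx {i : I} (hc : CccOn e code (Iio i)) (γ : Ω) :
    {k : I | ∃ (p : PC e code) (v : Bool), p ∈ Dv i γ k v}.Countable := by
  classical
  set S := {k : I | ∃ (p : PC e code) (v : Bool), p ∈ Dv i γ k v} with hS
  have h1 : ∀ k : I, ∃ p : PC e code, k ∈ S → (∃ v, p ∈ Dv i γ k v) ∧ p.lt i := by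
    intro k
    by_cases hk : k ∈ S
    · obtain ⟨p, v, hp⟩ := hk
      exact ⟨p.res i, fun _ => ⟨⟨v, (mem_res_iff (Dv_mem i γ k v)).2 hp⟩, PC.res_lt _ _⟩⟩
    · exact ⟨⊤, fun h => absurd h hk⟩
  choose g hg using h1
  have hinj : ∀ k ∈ S, ∀ k' ∈ S, (∃ r : PC e code, r ≤ g k ∧ r ≤ g k') → k = k' := by
    rintro k hk k' hk' ⟨r, h1, h2⟩
    obtain ⟨⟨v, hv⟩, -⟩ := hg k hk
    obtain ⟨⟨v', hv'⟩, -⟩ := hg k' hk'
    exact (Dv_fun (RO.mem_lower h1 hv) (RO.mem_lower h2 hv')).1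
  have h2 : (g '' S).Countable := by
    refine hc _ ?_ ?_
    · rintro p ⟨k, hk, rfl⟩ j hj
      exact (hg k hk).2 j hj
    · rintro p ⟨k, hk, rfl⟩ q ⟨k', hk', rfl⟩ hne hr
      exact hne (by rw [hinj k hk k' hk' hr])
  exact Set.countable_of_injective_of_countable_image
    (fun k hk k' hk' (h : g k = g k') => hinj k hk k' hk' ⟨g k, le_rfl, by rw [h]⟩) h2

theorem countable_dif {i i' j : I} (hij : i ≤ j) (hij' : i' ≤ j) (hc : CccOn e code (Iio j)) :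
    {δ : Ω | ∃ (p : PC e code) (k : I) (v : Bool), p ∈ Dv i δ k v ∧
      p ∈ Dv i' δ k (!v)}.Countable := by
  classical
  set S := {δ : Ω | ∃ (p : PC e code) (k : I) (v : Bool), p ∈ Dv i δ k v ∧
      p ∈ Dv i' δ k (!v)} with hS
  have h1 : ∀ δ : Ω, ∃ p : PC e code, δ ∈ S →
      (∃ k v, p ∈ Dv i δ k v ∧ p ∈ Dv i' δ k (!v)) ∧ p.lt j := by
    intro δ
    by_cases hk : δ ∈ S
    · obtain ⟨p, k, v, hp, hp'⟩ := hk
      exact ⟨p.res j, fun _ => ⟨⟨k, v, (mem_res_iff (S_mono hij (Dv_mem i δ k v))).2 hp,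
        (mem_res_iff (S_mono hij' (Dv_mem i' δ k (!v)))).2 hp'⟩, PC.res_lt _ _⟩⟩
    · exact ⟨⊤, fun h => absurd h hk⟩
  choose g hg using h1
  have hlt : ∀ δ ∈ S, ∀ δ' ∈ S, δ < δ' → ¬ ∃ r : PC e code, r ≤ g δ ∧ r ≤ g δ' := by
    rintro δ hδ δ' hδ' hlt ⟨r, h1, h2⟩
    obtain ⟨⟨k, v, hv, hv'⟩, -⟩ := hg δ hδ
    obtain ⟨⟨k', v', hw, hw'⟩, -⟩ := hg δ' hδ'
    exact Dv_split hlt (RO.mem_lower h1 hv) (RO.mem_lower h1 hv') (RO.mem_lower h2 hw)
      (RO.mem_lower h2 hw') rfl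
  have hinj : ∀ δ ∈ S, ∀ δ' ∈ S, (∃ r : PC e code, r ≤ g δ ∧ r ≤ g δ') → δ = δ' := by
    rintro δ hδ δ' hδ' ⟨r, h1, h2⟩
    by_contra hne
    rcases lt_or_gt_of_ne hne with h | h
    · exact hlt δ hδ δ' hδ' h ⟨r, h1, h2⟩
    · exact hlt δ' hδ' δ hδ h ⟨r, h2, h1⟩
  have h2 : (g '' S).Countable := by
    refine hc _ ?_ ?_
    · rintro p ⟨k, hk, rfl⟩ j hj
      exact (hg k hk).2 j hj
    · rintro p ⟨k, hk, rfl⟩ q ⟨k', hk', rfl⟩ hne hr
      exact hne (by rw [hinj k hk k' hk' hr])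
  exact Set.countable_of_injective_of_countable_image
    (fun k hk k' hk' (h : g k = g k') => hinj k hk k' hk' ⟨g k, le_rfl, by rw [h]⟩) h2

/-- One step of the closing-off. -/
structure Stp (e : Ω → ℕ → Ω → Prop) (code : I → Ω → Set (Cond I Ω))
    (R : PC e code → List (I × Ω × I × Bool) → ℕ → PC e code → Prop)
    (A A' : Set I) (β β' : Ω) : Prop where
  sub : A ⊆ A'
  le : β ≤ β'
  idx : ∀ i ∈ A, ∀ γ, γ < β → ∀ (p : PC e code) k v, p ∈ Dv i γ k v → k ∈ A'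
  dif : ∀ i ∈ A, ∀ i' ∈ A, ∀ (p : PC e code) δ k v, p ∈ Dv i δ k v → p ∈ Dv i' δ k (!v) → δ < β'
  ref : ∀ r π n, In A β r → (∀ z ∈ π, z.1 ∈ A ∧ z.2.1 < β ∧ z.2.2.1 ∈ A) → (∃ p, R r π n p) →
    ∃ p, In A' β' p ∧ R r π n p

theorem exists_stp (hb : ∀ s : Set Ω, s.Countable → ∃ b, ∀ x ∈ s, x < b)
    (hI : ∀ b : Ω, (Iio b).Countable) {J : Set I} (hJ : ∀ i ∈ J, ∀ k, k ≤ i → k ∈ J)
    (hc : ∀ i ∈ J, CccOn e code (Iio i))
    (R : PC e code → List (I × Ω × I × Bool) → ℕ → PC e code → Prop)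
    (hR : ∀ r π n p, R r π n p → ∀ i, p.f i ≠ Dat.emp → i ∈ J)
    {A : Set I} (hA : A.Countable) (hAJ : A ⊆ J) (β : Ω) :
    ∃ (A' : Set I) (β' : Ω), A'.Countable ∧ A' ⊆ J ∧ Stp e code R A A' β β' := by
  classical
  -- the arguments of the reflection
  set Z : Set (I × Ω × I × Bool) := A ×ˢ (Iio β ×ˢ (A ×ˢ (univ : Set Bool))) with hZ
  have hZc : Z.Countable := hA.prod ((hI β).prod (hA.prod (Set.to_countable _)))
  set T : Set (PC e code × List (I × Ω × I × Bool) × ℕ) :=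
    {r | In A β r} ×ˢ ({l | ∀ z ∈ l, z ∈ Z} ×ˢ (univ : Set ℕ)) with hT
  have hTc : T.Countable :=
    (countable_in hI hA β).prod ((countable_lists hZc).prod (Set.to_countable _))
  have hw : ∀ t : PC e code × List (I × Ω × I × Bool) × ℕ, ∃ p : PC e code,
      (∃ p, R t.1 t.2.1 t.2.2 p) → R t.1 t.2.1 t.2.2 p := by
    intro t
    by_cases h : ∃ p, R t.1 t.2.1 t.2.2 p
    · exact ⟨h.choose, fun _ => h.choose_spec⟩
    · exact ⟨⊤, fun h' => absurd h' h⟩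
  choose w hw using hw
  set T' : Set (PC e code × List (I × Ω × I × Bool) × ℕ) :=
    {t ∈ T | ∃ p, R t.1 t.2.1 t.2.2 p} with hT'
  have hTc' : T'.Countable := hTc.mono (sep_subset _ _)
  set A' : Set I := A ∪ ((⋃ i ∈ A, ⋃ γ ∈ Iio β,
    {k : I | ∃ (p : PC e code) (v : Bool), p ∈ Dv i γ k v}) ∪ ⋃ t ∈ T', sup (w t)) with hA'
  obtain ⟨β', hβ'⟩ := hb ({β} ∪ ((⋃ i ∈ A, ⋃ i' ∈ A,
    {δ : Ω | ∃ (p : PC e code) (k : I) (v : Bool), p ∈ Dv i δ k v ∧ p ∈ Dv i' δ k (!v)}) ∪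
      ⋃ t ∈ T', occ (w t))) (by
    refine (Set.countable_singleton β).union ((hA.biUnion fun i hi => hA.biUnion fun i' hi' => ?_).union
      (hTc'.biUnion fun t _ => (occ_finite _).countable))
    rcases le_total i i' with h | h
    · exact countable_dif h le_rfl (hc i' (hAJ hi'))
    · exact countable_dif le_rfl h (hc i (hAJ hi)))
  refine ⟨A', β', ?_, ?_, ?_, ?_, ?_, ?_, ?_⟩
  · exact hA.union ((hA.biUnion fun i hi => (hI β).biUnion fun γ _ =>
      countable_idx (hc i (hAJ hi)) γ).union (hTc'.biUnion fun t _ => (sup_finite _).countable))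
  · refine union_subset hAJ (union_subset ?_ ?_)
    · refine iUnion₂_subset fun i hi => iUnion₂_subset fun γ _ => ?_
      rintro k ⟨p, v, hp⟩
      exact hJ i (hAJ hi) k (mem_Dv.1 hp).1
    · refine iUnion₂_subset fun t ht i hi => ?_
      exact hR _ _ _ _ (hw t ht.2) i hi
  · exact subset_union_left
  · exact (hβ' β (Or.inl rfl)).le
  · intro i hi γ hγ p k v hp
    exact Or.inr (Or.inl (mem_biUnion hi (mem_biUnion (show γ ∈ Iio β from hγ) ⟨p, v, hp⟩)))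
  · intro i hi i' hi' p δ k v h1 h2
    exact hβ' δ (Or.inr (Or.inl (mem_biUnion hi (mem_biUnion hi' ⟨p, k, v, h1, h2⟩))))
  · intro r π n hr hπ hp
    have ht : (r, π, n) ∈ T' := by
      refine ⟨⟨hr, fun z hz => ?_, mem_univ _⟩, hp⟩
      obtain ⟨h1, h2, h3⟩ := hπ z hz
      exact ⟨h1, h2, h3, mem_univ _⟩
    refine ⟨w (r, π, n), in_iff.2 ⟨fun i hi => ?_, fun δ hδ => ?_⟩, hw (r, π, n) hp⟩
    · exact Or.inr (Or.inr (mem_biUnion ht hi))
    · exact hβ' δ (Or.inr (Or.inr (mem_biUnion ht hδ)))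

end H30Good

theorem exists_good [WellFoundedLT Ω] (hb : ∀ s : Set Ω, s.Countable → ∃ b, ∀ x ∈ s, x < b)
    (hI : ∀ b : Ω, (Iio b).Countable) {J : Set I} (hJ : ∀ i ∈ J, ∀ k, k ≤ i → k ∈ J)
    (hc : ∀ i ∈ J, CccOn e code (Iio i)) {A₀ : Set I} (hA₀ : A₀.Countable) (hA₀J : A₀ ⊆ J)
    (β₀ : Ω) (R : PC e code → List (I × Ω × I × Bool) → ℕ → PC e code → Prop)
    (hR : ∀ r π n p, R r π n p → ∀ i, p.f i ≠ Dat.emp → i ∈ J) :
    ∃ (A : Set I) (β : Ω), A₀ ⊆ A ∧ A ⊆ J ∧ A.Countable ∧ β₀ ≤ β ∧ Good e code A β ∧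
      ∀ r π n, In A β r → (∀ z ∈ π, z.1 ∈ A ∧ z.2.1 < β ∧ z.2.2.1 ∈ A) → (∃ p, R r π n p) →
        ∃ p, In A β p ∧ R r π n p := by
  classical
  have hstep : ∀ x : {x : Set I × Ω // x.1.Countable ∧ x.1 ⊆ J},
      ∃ y : {x : Set I × Ω // x.1.Countable ∧ x.1 ⊆ J}, Stp e code R x.1.1 y.1.1 x.1.2 y.1.2 := by
    rintro ⟨⟨A, β⟩, hA, hAJ⟩
    obtain ⟨A', β', h1, h2, h3⟩ := exists_stp hb hI hJ hc R hR hA hAJ β
    exact ⟨⟨(A', β'), h1, h2⟩, h3⟩
  choose nx hnx using hstep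
  let s : ℕ → {x : Set I × Ω // x.1.Countable ∧ x.1 ⊆ J} :=
    fun n => nx^[n] ⟨(A₀, β₀), hA₀, hA₀J⟩
  have hs : ∀ n, Stp e code R (s n).1.1 (s (n + 1)).1.1 (s n).1.2 (s (n + 1)).1.2 := by
    intro n
    have : s (n + 1) = nx (s n) := Function.iterate_succ_apply' _ _ _
    rw [this]
    exact hnx _
  have hmA : Monotone fun n => (s n).1.1 := monotone_nat_of_le_succ fun n => (hs n).sub
  have hmβ : Monotone fun n => (s n).1.2 := monotone_nat_of_le_succ fun n => (hs n).le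
  -- the limit of the bounds
  have hne : {b : Ω | ∀ n, (s n).1.2 ≤ b}.Nonempty := by
    obtain ⟨b, hb'⟩ := hb (range fun n => (s n).1.2) (Set.countable_range _)
    exact ⟨b, fun n => (hb' _ ⟨n, rfl⟩).le⟩
  set β := wellFounded_lt.min {b : Ω | ∀ n, (s n).1.2 ≤ b} hne with hβ
  have hβle : ∀ n, (s n).1.2 ≤ β := wellFounded_lt.min_mem _ hne
  have hβlt : ∀ γ, γ < β → ∃ n, γ < (s n).1.2 := by
    intro γ hγ
    by_contra hcon
    push Not at hcon
    exact wellFounded_lt.not_lt_min _ (show γ ∈ {b : Ω | ∀ n, (s n).1.2 ≤ b} from hcon) hγ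
  set A : Set I := ⋃ n, (s n).1.1 with hA
  have hsub : ∀ n, (s n).1.1 ⊆ A := fun n => subset_iUnion (fun n => (s n).1.1) n
  -- finite sets are in a stage
  have hfin : ∀ t : Set I, t.Finite → t ⊆ A → ∃ n, t ⊆ (s n).1.1 := by
    intro t ht
    induction t, ht using Set.Finite.induction_on with
    | empty => exact fun _ => ⟨0, empty_subset _⟩
    | @insert a t _ _ ih =>
      intro h
      obtain ⟨n, hn⟩ := ih ((subset_insert _ _).trans h)
      obtain ⟨m, hm⟩ := mem_iUnion.1 (h (mem_insert a t))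
      exact ⟨max n m, insert_subset (hmA (le_max_right _ _) hm)
        (hn.trans (hmA (le_max_left _ _)))⟩
  have hfinβ : ∀ t : Set Ω, t.Finite → (∀ x ∈ t, x < β) → ∃ n, ∀ x ∈ t, x < (s n).1.2 := by
    intro t ht
    induction t, ht using Set.Finite.induction_on with
    | empty => exact fun _ => ⟨0, fun x hx => absurd hx (notMem_empty _)⟩
    | @insert a t _ _ ih =>
      intro h
      obtain ⟨n, hn⟩ := ih fun x hx => h x (mem_insert_of_mem _ hx)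
      obtain ⟨m, hm⟩ := hβlt a (h a (mem_insert _ _))
      refine ⟨max n m, fun x hx => ?_⟩
      rcases mem_insert_iff.1 hx with rfl | hx
      · exact hm.trans_le (hmβ (le_max_right _ _))
      · exact (hn x hx).trans_le (hmβ (le_max_left _ _))
  refine ⟨A, β, hsub 0, iUnion_subset fun n => (s n).2.2, Set.countable_iUnion fun n => (s n).2.1,
    hβle 0, ⟨?_, ?_⟩, ?_⟩
  · intro i hi γ hγ p k v hp
    obtain ⟨n, hn⟩ := mem_iUnion.1 hi
    obtain ⟨m, hm⟩ := hβlt γ hγ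
    exact hsub _ ((hs (max n m)).idx i (hmA (le_max_left _ _) hn) γ
      (hm.trans_le (hmβ (le_max_right _ _))) p k v hp)
  · intro i hi i' hi' p δ k v h1 h2
    obtain ⟨n, hn⟩ := mem_iUnion.1 hi
    obtain ⟨m, hm⟩ := mem_iUnion.1 hi'
    exact ((hs (max n m)).dif i (hmA (le_max_left _ _) hn) i' (hmA (le_max_right _ _) hm) p δ k v
      h1 h2).trans_le (hβle _)
  · intro r π n hr hπ hp
    obtain ⟨h1, h2⟩ := in_iff.1 hr
    obtain ⟨n1, hn1⟩ := hfin _ (sup_finite r) h1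
    obtain ⟨n2, hn2⟩ := hfinβ _ (occ_finite r) h2
    obtain ⟨n3, hn3⟩ := hfin ((fun z => z.1) '' {z | z ∈ π} ∪ (fun z => z.2.2.1) '' {z | z ∈ π})
      ((π.finite_toSet.image _).union (π.finite_toSet.image _)) (by
        rintro x (⟨z, hz, rfl⟩ | ⟨z, hz, rfl⟩)
        · exact (hπ z hz).1
        · exact (hπ z hz).2.2)
    obtain ⟨n4, hn4⟩ := hfinβ ((fun z => z.2.1) '' {z | z ∈ π}) (π.finite_toSet.image _) (by
        rintro x ⟨z, hz, rfl⟩
        exact (hπ z hz).2.1)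
    set N := max (max n1 n2) (max n3 n4) with hN
    have h3 : In (s N).1.1 (s N).1.2 r := in_iff.2
      ⟨hn1.trans (hmA (by omega)), fun δ hδ => (hn2 δ hδ).trans_le (hmβ (by omega))⟩
    have h4 : ∀ z ∈ π, z.1 ∈ (s N).1.1 ∧ z.2.1 < (s N).1.2 ∧ z.2.2.1 ∈ (s N).1.1 := fun z hz =>
      ⟨hmA (show n3 ≤ N by omega) (hn3 (Or.inl ⟨z, hz, rfl⟩)),
        (hn4 _ ⟨z, hz, rfl⟩).trans_le (hmβ (show n4 ≤ N by omega)),
        hmA (show n3 ≤ N by omega) (hn3 (Or.inr ⟨z, hz, rfl⟩))⟩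
    obtain ⟨p, hp1, hp2⟩ := (hs N).ref r π n h3 h4 hp
    exact ⟨p, in_mono (hsub _) (hβle _) hp1, hp2⟩

end Pool.Agent.Helper69.HA
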